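import Pool.Agent.helper10.V3.SpecL

/-!
# Project v3 (MP_af9036_an, MP_70a088_an): BA3, the function `v`
-/

set_option autoImplicit false

open Complex Metric Set Filter Topology MeasureTheory MPS

noncomputable section

namespace V3S

theorem BA3 (h1 : BA1_stmt) : BA3_stmt := by
  intro n ra Cf D hD
  obtain ⟨-, -, -, -, -, -, hF, -, -, -, hp, -, -, -, -, hder⟩ := h1 n ra Cf D hD
  have hv : Differentiable ℂ D.v := ((hF D.k).sub differentiable_id).div_const _
  refine ⟨hv, fun l => ⟨?_, ?_⟩⟩
  · unfold Dat.v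
    rw [hp D.k l, ZMod.natCast_self, add_zero, sub_self, zero_div]
  · have e : D.v = fun x => (D.F D.k x - x) / D.lam := rfl
    have h2 : HasDerivAt (fun x => (D.F D.k x - x) / D.lam)
        ((deriv (D.F D.k) (D.p l) - 1) / D.lam) (D.p l) :=
      (((hF D.k) (D.p l)).hasDerivAt.sub (hasDerivAt_id _)).div_const _
    rw [e, h2.deriv, hder l]

end V3S
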