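import Pool.Agent.helper36.V3.SpecS

/-!
# Project v3 (MP_af9036_an, MP_70a088_an): CS, the chain step
-/

set_option autoImplicit false

open Complex Metric Set Filter Topology MeasureTheory MPS

noncomputable section

namespace PPS

theorem CS_lev {k : ℕ} [NeZero k] {f : Polynomial ℂ} {b g : ZMod k → ℂ} {G : ℕ → ℂ → ℂ} {Ω Ω' : Set ℂ} {Q : ℕ}
    (h : LevSys f b g G Ω Q) (hs : Ω' ⊆ Ω) : LevSys f b g G Ω' Q :=
  ⟨⟨h.nat0.diff.mono hs, fun w hw => h.nat0.av w (hs hw), fun w hw => h.nat0.eq w (hs hw)⟩,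
    fun q hq => (h.diff q hq).mono hs, fun q hq w hw => h.rel q hq w (hs hw)⟩

theorem CS (hPH : PH3_stmt) (hS3G : S3G_stmt) (hS3A : S3A_stmt) (hPT : PT3_stmt) : CS_stmt := by
  intro n k _ f b g R ε h r₀ χ G0 PP M hsu he
  obtain ⟨r, G, hr, hH⟩ := hPH n k f b g R ε h r₀ χ G0 PP M hsu he
  obtain ⟨hA1, hA2, hA3, hA4, -, -, -⟩ := hS3A n k f b g R ε h r₀ χ G0 PP M (fun _ => r) G k hH
  have hε : 0 ≤ ε := (hS3G n k f b g R ε h r₀ χ G0 PP M hsu).2.2.2.1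
  have h0 : 0 < h := hsu.h0
  have hr0 : r₀ ≤ h / 2 := hsu.r1
  have hsub : ball (0 : ℂ) (3 * h / 4) ⊆ ball 0 r := ball_subset_ball hr.le
  have hg0 : G 0 = χ := hH.sys.g0
  have hk : 1 ≤ k := Nat.one_le_iff_ne_zero.mpr (NeZero.ne k)
  have hbd : 0 ≤ 16 * ((M : ℝ) + 5) * ε / h ^ 2 := by positivity
  have hpt : ∀ w ∈ ball (0 : ℂ) (h / 2), ∀ p, 1 ≤ p → p ≤ k →
      ∑ q ∈ Finset.Icc 1 p, lev b g G q w ≤ 16 * (M + 5) * ε / h ^ 2 ∧
      ‖tau b g G p w - 1‖ ≤ 16 * (M + 5) * ε / h ^ 2 := by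
    intro w hw p h1 hp
    have hw' : ‖w‖ < h / 2 := by simpa using hw
    obtain ⟨e1, e2⟩ := hPT n k f b g R ε h r₀ χ G0 PP M (fun _ => r) G k hH p h1 hp w (h / 4)
      (by linarith) (by linarith)
    have e3 : ((M : ℝ) + 5) * ε / (h / 4) ^ 2 = 16 * (M + 5) * ε / h ^ 2 := by
      field_simp
      norm_num
    rw [e3] at e1
    exact ⟨e1, e2.trans e1⟩
  refine ⟨G, hg0, CS_lev (hA4 k le_rfl) hsub, fun q hq => ?_, fun q hq => (hA2 q hq).mono hsub,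
    fun q hq => (hA3 q hq).mono_left hsub, fun w hw => ⟨(hpt w hw k hk le_rfl).1, fun q hq => ?_⟩⟩
  · have h1 := hA1 q hq
    rwa [min_eq_left (by linarith)] at h1
  · rcases Nat.eq_zero_or_pos q with rfl | hq0
    · have hw' : ‖w‖ < h / 2 := by simpa using hw
      have h1 : tau b g G 0 w = 1 := by
        unfold tau
        rw [hg0]
        exact hsu.nat.eq w (by simpa using (by linarith : ‖w‖ < 16 * h))
      rw [h1, sub_self, norm_zero]
      exact hbd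
    · exact (hpt w hw q hq0 hq).2

end PPS
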