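import Pool.Agent.helper36.V3.SpecS

/-!
# Project v3: (MP_af9036_an): module S3L, the `L¹` bound (adapted from Pool/Agent/helper16/PP/P2L.lean)
-/

set_option autoImplicit false

open Complex Metric Set Filter Topology MeasureTheory MPS

noncomputable section

namespace PPS

lemma S3L_ofReal_sum_le {ι : Type} (s : Finset ι) (f : ι → ℝ) :
    ENNReal.ofReal (∑ i ∈ s, f i) ≤ ∑ i ∈ s, ENNReal.ofReal (f i) := by
  classical
  induction s using Finset.induction_on with
  | empty => simp
  | insert a s ha ih =>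
    rw [Finset.sum_insert ha, Finset.sum_insert ha]
    exact (ENNReal.ofReal_add_le).trans (add_le_add le_rfl ih)

lemma S3L_Icc {M : Type} [AddCommMonoid M] (F : ℕ → M) (Q : ℕ) :
    ∑ q ∈ Finset.Icc 1 Q, F q = ∑ q ∈ Finset.range Q, F (q + 1) := by
  induction Q with
  | zero => simp
  | succ Q ih =>
    rw [Finset.sum_Icc_succ_top (by omega), ih, Finset.sum_range_succ]

/-- pointwise comparison on nested sets -/
lemma S3L_nested (D : ℕ → Set ℂ) (f g : ℕ → ℂ → ENNReal) (w : ℂ) : ∀ Q : ℕ,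
    (∀ q q', q ≤ q' → q' ≤ Q → D q' ⊆ D q) →
    (∀ Q' ≤ Q, w ∈ D Q' → ∑ q ∈ Finset.range Q', f q w ≤ ∑ q ∈ Finset.range Q', g q w) →
    ∑ q ∈ Finset.range Q, (D (q + 1)).indicator (f q) w ≤
      ∑ q ∈ Finset.range Q, (D (q + 1)).indicator (g q) w := by
  intro Q
  induction Q with
  | zero => intro _ _; simp
  | succ Q ih =>
    intro hD h
    by_cases hw : w ∈ D (Q + 1)
    · have hmem : ∀ q ∈ Finset.range (Q + 1), w ∈ D (q + 1) := by
        intro q hq
        have := Finset.mem_range.1 hq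
        exact hD (q + 1) (Q + 1) (by omega) le_rfl hw
      rw [Finset.sum_congr rfl (fun q hq => Set.indicator_of_mem (hmem q hq) (f q)),
        Finset.sum_congr rfl (fun q hq => Set.indicator_of_mem (hmem q hq) (g q))]
      exact h (Q + 1) le_rfl hw
    · rw [Finset.sum_range_succ, Finset.sum_range_succ, Set.indicator_of_notMem hw,
        Set.indicator_of_notMem hw, add_zero, add_zero]
      exact ih (fun q q' h1 h2 => hD q q' h1 (by omega)) (fun Q' hQ' => h Q' (by omega))

theorem S3L (hLEA : LEA_stmt) (hLV : LV_stmt) (hMI : MI_stmt) (hMA : MA_stmt) (hHAR : HAR_stmt)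
    (hP2A : S3A_stmt) : S3L_stmt := by
  intro n k _ f b g R ε ρ r₀ χ G0 PP M T G Q H
  obtain ⟨-, hinj, hmaps, hlevs, hmult, -, hS0⟩ := hP2A n k f b g R ε ρ r₀ χ G0 PP M T G Q H
  obtain ⟨su, sys, hQk⟩ := H
  have hρ : 0 < ρ := su.h0
  have hρ1 : ρ ≤ 1 := su.h1
  have hdeg1 : 1 ≤ f.natDegree := by rw [su.hdeg]; linarith [su.hn]
  set x : ℂ := 0 with hx
  set E : ℝ := ∫ z in ball (0 : ℂ) R, ‖er f b g z‖ with hEdef
  set Λ : ℝ := Real.log ‖rho f b‖ with hΛdef
  have hE0 : 0 ≤ E := integral_nonneg (fun _ => norm_nonneg _)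
  have hΛ0 : 0 ≤ Λ := Real.log_nonneg su.rho1.le
  have hEε : 2 * Real.pi * Λ + 4 * E ≤ ε := su.hE
  have hπ : 0 < Real.pi := Real.pi_pos
  have hπΛ : 0 ≤ 2 * Real.pi * Λ := by positivity
  have hε : 0 ≤ ε := by linarith
  -- monotonicity of the radii
  have hanti : ∀ q q', q ≤ q' → q' ≤ Q → T q' ≤ T q := by
    intro q q' hqq
    induction q', hqq using Nat.le_induction with
    | base => intro _; exact le_rfl
    | succ m hm ih => intro hmQ; exact (sys.anti m (by omega)).trans (ih (by omega))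
  have hTρ : ∀ q ≤ Q, T q ≤ 1 := fun q hq => ((hanti 0 q (by omega) hq).trans sys.t0).trans hρ1
  have hTlow : ∀ q ≤ Q, 0 < T q := fun q hq => sys.pos q hq
  have hDD : ∀ q q', q ≤ q' → q' ≤ Q → ball x (T q') ⊆ ball x (T q) :=
    fun q q' h1 h2 => ball_subset_ball (hanti q q' h1 h2)
  -- the level functions
  let h : ℕ → ℂ → ℂ := fun q w => tau b g G q w - tau b g G (q + 1) w
  have hlev : ∀ q w, lev b g G (q + 1) w = ‖h q w‖ := fun q w => rfl
  have hh : ∀ q < Q, DifferentiableOn ℂ (h q) (ball x (T (q + 1))) := by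
    intro q hq
    have h1 := (hLEA k f b g G (ball x (T (q + 1))) (q + 1) su.cyc isOpen_ball
      (hlevs (q + 1) (by omega))).2.2.1
    exact (h1 q (by omega)).sub (h1 (q + 1) le_rfl)
  -- the deficits
  let F : ℕ → ℂ → ℝ := fun q w => ‖h q w‖ - (h q w).re
  have hF0 : ∀ q w, 0 ≤ F q w := fun q w => sub_nonneg.2 (Complex.re_le_norm _)
  have hFc : ∀ q < Q, ContinuousOn (F q) (ball x (T (q + 1))) := by
    intro q hq
    exact ((hh q hq).continuousOn.norm).sub
      (Complex.continuous_re.comp_continuousOn (hh q hq).continuousOn)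
  have hFm : ∀ q < Q, AEMeasurable (fun w => ENNReal.ofReal (F q w))
      (volume.restrict (ball x (T (q + 1)))) := by
    intro q hq
    exact ((hFc q hq).aemeasurable measurableSet_ball).ennreal_ofReal
  have hdm : ∀ q < Q, AEMeasurable (fun w => ENNReal.ofReal (dens f b g (G q) w))
      (volume.restrict (ball x (T (q + 1)))) := by
    intro q hq
    have hG : AEMeasurable (G q) (volume.restrict (ball x (T (q + 1)))) :=
      (((sys.diff q (by omega)).continuousOn).mono (hDD q (q + 1) (by omega) (by omega))).aemeasurable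
        measurableSet_ball
    obtain ⟨-, -, her, hDf, -, -⟩ := hMI k f b g hdeg1
    refine AEMeasurable.ennreal_ofReal ?_
    unfold dens
    exact ((hDf.comp_aemeasurable hG).add ((her.comp_aemeasurable hG).norm.const_mul 2)).mul
      ((measurable_deriv (G q)).norm.pow_const 2).aemeasurable
  -- the total mass
  have hcond : ∀ q < Q, IsOpen (ball x (T (q + 1))) ∧ DifferentiableOn ℂ (G q) (ball x (T (q + 1))) ∧
      InjOn (G q) (ball x (T (q + 1))) ∧ MapsTo (G q) (ball x (T (q + 1))) (ball 0 R) := by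
    intro q hq
    have hsub := hDD q (q + 1) (by omega) (by omega)
    exact ⟨isOpen_ball, (sys.diff q (by omega)).mono hsub, (hinj q (by omega)).mono hsub,
      (hmaps q (by omega)).mono_left hsub⟩
  obtain ⟨hM1, -⟩ := hMA n k f b g R su.hn su.hdeg su.cyc su.rho1 su.posR
    su.hb su.inv Q (M + 1)
    (fun q => ball x (T (q + 1))) G hcond hmult
  have hSA : ∑ q ∈ Finset.range Q, ∫⁻ w in ball x (T (q + 1)), ENNReal.ofReal (F q w) ≤
      ENNReal.ofReal ((M + 1) * (2 * Real.pi * Λ + 3 * E)) := by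
    have h2 : ((M + 1 : ℕ) : ENNReal) * ENNReal.ofReal (2 * Real.pi * Λ + 3 * E) =
        ENNReal.ofReal ((M + 1) * (2 * Real.pi * Λ + 3 * E)) := by
      rw [ENNReal.ofReal_mul (by positivity)]
      congr 1
      rw [← ENNReal.ofReal_natCast]
      push_cast
      rfl
    rw [← h2]
    refine le_trans ?_ hM1
    have e1 : ∀ u : ℕ → ℂ → ENNReal, ∑ q ∈ Finset.range Q, ∫⁻ w in ball x (T (q + 1)), u q w =
        ∑ q ∈ Finset.range Q, ∫⁻ w, (ball x (T (q + 1))).indicator (u q) w := by
      intro u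
      refine Finset.sum_congr rfl (fun q _ => ?_)
      rw [lintegral_indicator measurableSet_ball]
    rw [e1 (fun q w => ENNReal.ofReal (F q w)), e1 (fun q w => ENNReal.ofReal (dens f b g (G q) w))]
    rw [← lintegral_finsetSum' _ (fun q hq => (aemeasurable_indicator_iff measurableSet_ball).2
        (hFm q (Finset.mem_range.1 hq))),
      ← lintegral_finsetSum' _ (fun q hq => (aemeasurable_indicator_iff measurableSet_ball).2
        (hdm q (Finset.mem_range.1 hq)))]
    refine lintegral_mono (fun w => ?_)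
    refine S3L_nested (fun q => ball x (T q)) _ _ w Q hDD ?_
    intro Q' hQ' hw
    have hlv := (hLV k f b g G (ball x (T Q')) Q' hdeg1 su.cyc isOpen_ball (hlevs Q' hQ')).1
      Q' le_rfl w hw
    have hreal : ∑ q ∈ Finset.range Q', F q w ≤ ∑ q ∈ Finset.range Q', dens f b g (G q) w := by
      have h3 : 0 ≤ ‖tau b g G Q' w‖ - (tau b g G Q' w).re := sub_nonneg.2 (Complex.re_le_norm _)
      have h4 : ∑ q ∈ Finset.range Q', F q w = ∑ q ∈ Finset.range Q',
        (lev b g G (q + 1) w - (tau b g G q w - tau b g G (q + 1) w).re) := rfl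
      rw [h4]
      linarith
    calc ∑ q ∈ Finset.range Q', ENNReal.ofReal (F q w)
        = ENNReal.ofReal (∑ q ∈ Finset.range Q', F q w) :=
          (ENNReal.ofReal_sum_of_nonneg (fun q _ => hF0 q w)).symm
      _ ≤ ENNReal.ofReal (∑ q ∈ Finset.range Q', dens f b g (G q) w) :=
          ENNReal.ofReal_le_ofReal hreal
      _ ≤ ∑ q ∈ Finset.range Q', ENNReal.ofReal (dens f b g (G q) w) := S3L_ofReal_sum_le _ _
  -- Harnack at the centre, for every level
  have hlevel : ∀ q < Q, ∫⁻ w in ball x (T (q + 1)), ENNReal.ofReal (lev b g G (q + 1) w) ≤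
      (∫⁻ w in ball x (T (q + 1)), ENNReal.ofReal (F q w)) +
      ENNReal.ofReal (Real.pi * lev b g G (q + 1) x) := by
    intro q hq
    have hTq : 0 < T (q + 1) := hTlow (q + 1) (by omega)
    have hfin : ∫⁻ w in ball x (T (q + 1)), ENNReal.ofReal (F q w) ≠ ⊤ := by
      refine ne_top_of_le_ne_top ENNReal.ofReal_ne_top (le_trans ?_ hSA)
      exact Finset.single_le_sum
        (f := fun q => ∫⁻ w in ball x (T (q + 1)), ENNReal.ofReal (F q w))
        (fun _ _ => bot_le) (Finset.mem_range.2 hq)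
    have hH := (hHAR Unit {()} (fun _ => h q) x (T (q + 1))
      (∫⁻ w in ball x (T (q + 1)), ENNReal.ofReal (F q w)).toReal hTq ENNReal.toReal_nonneg
      (fun _ _ => hh q hq) (by
        rw [ENNReal.ofReal_toReal hfin]
        simp only [Finset.sum_singleton]
        exact le_rfl)).1
    simp only [Finset.sum_singleton] at hH
    refine hH.trans ?_
    refine (ENNReal.ofReal_add_le).trans ?_
    rw [ENNReal.ofReal_toReal hfin]
    refine add_le_add le_rfl (ENNReal.ofReal_le_ofReal ?_)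
    refine mul_le_mul_of_nonneg_right ?_ (norm_nonneg _)
    have h5 : T (q + 1) ^ 2 ≤ 1 := pow_le_one₀ hTq.le (hTρ (q + 1) (by omega))
    calc Real.pi * T (q + 1) ^ 2 ≤ Real.pi * 1 := mul_le_mul_of_nonneg_left h5 hπ.le
      _ = Real.pi := mul_one _
  rw [S3L_Icc] at hS0
  rw [S3L_Icc]
  have hS00 : ∀ q, 0 ≤ lev b g G (q + 1) x := fun q => norm_nonneg _
  have hlast : Real.pi * ∑ q ∈ Finset.range Q, lev b g G (q + 1) x ≤ 4 * ε := by
    calc Real.pi * ∑ q ∈ Finset.range Q, lev b g G (q + 1) x ≤ Real.pi * ε :=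
          mul_le_mul_of_nonneg_left hS0 hπ.le
      _ ≤ 4 * ε := mul_le_mul_of_nonneg_right Real.pi_le_four hε
  calc ∑ q ∈ Finset.range Q, ∫⁻ w in ball x (T (q + 1)), ENNReal.ofReal (lev b g G (q + 1) w)
      ≤ ∑ q ∈ Finset.range Q, ((∫⁻ w in ball x (T (q + 1)), ENNReal.ofReal (F q w)) +
        ENNReal.ofReal (Real.pi * lev b g G (q + 1) x)) :=
        Finset.sum_le_sum (fun q hq => hlevel q (Finset.mem_range.1 hq))
    _ = (∑ q ∈ Finset.range Q, ∫⁻ w in ball x (T (q + 1)), ENNReal.ofReal (F q w)) +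
        ENNReal.ofReal (Real.pi * ∑ q ∈ Finset.range Q, lev b g G (q + 1) x) := by
        rw [Finset.sum_add_distrib,
          ← ENNReal.ofReal_sum_of_nonneg (fun q _ => mul_nonneg (by positivity) (hS00 q)),
          ← Finset.mul_sum]
    _ ≤ ENNReal.ofReal ((M + 1) * (2 * Real.pi * Λ + 3 * E)) + ENNReal.ofReal (4 * ε) :=
        add_le_add hSA (ENNReal.ofReal_le_ofReal hlast)
    _ = ENNReal.ofReal ((M + 1) * (2 * Real.pi * Λ + 3 * E) + 4 * ε) := by
        rw [ENNReal.ofReal_add (by positivity) (by positivity)]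
    _ ≤ ENNReal.ofReal ((M + 5) * ε) := by
        refine ENNReal.ofReal_le_ofReal ?_
        have h6 : ((M : ℝ) + 1) * (2 * Real.pi * Λ + 3 * E) ≤ (M + 1) * ε :=
          mul_le_mul_of_nonneg_left (by linarith) (by positivity)
        linarith

end PPS
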