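import Pool.Agent.helper54.V3.SpecE

/-!
# Project v3 (MP_af9036_an): SQC
-/

set_option autoImplicit false

open Complex Metric Set Filter Topology MeasureTheory

namespace V3

theorem SQC : SQC_stmt := by
  intro Ω f g hΩ hf hg hg0 hsq
  have h := IsPreconnected.eq_or_eq_neg_of_sq_eq hΩ hf hg
    (fun x hx => by simpa only [Pi.pow_apply] using hsq x hx) (fun {x} hx => hg0 x hx)
  rcases h with h | h
  · exact ⟨1, Or.inl rfl, fun x hx => by rw [h hx, one_mul]⟩
  · exact ⟨-1, Or.inr rfl, fun x hx => by rw [h hx, Pi.neg_apply]; ring⟩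

end V3
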