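import Pool.Agent.helper36.V3.SpecW
import Pool.Agent.helper32.MP.TGP

/-!
# Project v3 (MP_af9036_an, MP_70a088_an): THV, Theorem V for the coefficients
-/

set_option autoImplicit false

open Complex Metric Set Filter Topology MeasureTheory MPS Pool.Agent.helper98.ILF Pool.Agent.helper16.Multibrot

noncomputable section

namespace V3W

theorem THV (hU : UER_stmt) (hP : VPD_stmt) (hL : LGN_stmt) (hMI : MPS.MI_stmt) : THV_stmt := by
  intro n K hn hK
  have hpi : 0 < Real.pi := Real.pi_pos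
  obtain ⟨ε₁, hε₁, hmain⟩ := hP n 3 (fun R => 2 * K * (2 * Real.pi * (R + 3))) hn (by norm_num)
  refine ⟨min (1 / 2) (ε₁ / 4), by positivity, ?_⟩
  intro k _ c b g hk hc hcyc hrho hnear hg
  by_contra hcon
  push Not at hcon
  obtain ⟨hBd, hcyc', hex, hrho', her⟩ := hU n k c b g hn hc hcyc hg
  obtain ⟨lam, hlam1, hlam2, hlam3, hlam4⟩ := hL.1 (MPS.rho n b) hrho
    (le_trans hnear (min_le_left _ _))
  have hS : ‖∑ i, g i‖ ≤ K * (2 * ‖lam‖) :=
    hcon.le.trans (mul_le_mul_of_nonneg_left hlam4 hK.le)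
  have h1 : ε₁ ≤ ‖lam‖ := by
    refine hmain k (Polynomial.X ^ n + Polynomial.C c) b g lam hk hBd hcyc' hex
      (by rw [hrho', hlam1]) (by rw [hlam2]; exact Real.log_pos hrho) fun R hR => ?_
    have e1 : ∫ z in ball (0 : ℂ) R, ‖PPS.er (Polynomial.X ^ n + Polynomial.C c) b g z‖ =
        ∫ z in ball (0 : ℂ) R, ‖∑ i, g i‖ * (1 / ‖z - c‖) := by
      refine integral_congr_ae ?_
      refine (ae_restrict_of_ae her).mono fun z hz => ?_
      simp only
      rw [hz, norm_div, mul_one_div]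
    have e2 := (MPS.TGP_int hMI c R (by linarith)).2
    rw [e1, integral_const_mul]
    calc ‖∑ i, g i‖ * ∫ z in ball (0 : ℂ) R, 1 / ‖z - c‖
        ≤ K * (2 * ‖lam‖) * (2 * Real.pi * (R + 3)) := by
          refine mul_le_mul hS (e2.trans ?_) (integral_nonneg fun z => by positivity)
            (by positivity)
          exact mul_le_mul_of_nonneg_left (by linarith) (by positivity)
      _ = 2 * K * (2 * Real.pi * (R + 3)) * ‖lam‖ := by ring
  have h2 : ‖MPS.rho n b - 1‖ ≤ ε₁ / 4 := hnear.trans (min_le_right _ _)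
  linarith

end V3W
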