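import Pool.Agent.helper10.V3.SpecL

/-!
# Project v3 (MP_af9036_an, MP_70a088_an): VLM, the limit of `v`
-/

set_option autoImplicit false

open Complex Metric Set Filter Topology MeasureTheory MPS

noncomputable section

namespace V3S

/-- `(exp z - 1)/z → 1`. -/
theorem VLM_exp (z : ℕ → ℂ) (h0 : ∀ m, z m ≠ 0) (hz : Tendsto z UF (𝓝 0)) :
    Tendsto (fun m => (Complex.exp (z m) - 1) / z m) UF (𝓝 1) := by
  have h1 : HasDerivAt Complex.exp 1 0 := by
    have h := Complex.hasDerivAt_exp 0
    rwa [Complex.exp_zero] at h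
  have h2 := hasDerivAt_iff_tendsto_slope.mp h1
  have h3 : Tendsto z UF (𝓝[≠] 0) :=
    tendsto_nhdsWithin_iff.mpr ⟨hz, Eventually.of_forall fun m => h0 m⟩
  refine (h2.comp h3).congr fun m => ?_
  rw [Function.comp_apply, slope_def_field, Complex.exp_zero, sub_zero]

theorem VLM (hV : VBD_stmt) (hM : V3.TMO_stmt) (hD' : V3.TDE_stmt) (hB : BA3_stmt) :
    VLM_stmt := by
  intro n ra Cf D hS
  have hdv : ∀ m, Differentiable ℂ (D m).v := fun m => (hB n ra Cf (D m) (hS.good m)).1
  have hev : ∀ x ∈ (univ : Set ℂ), V3.EvHol (hyperfilter ℕ) (fun m => (D m).v) x := fun x _ =>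
    ⟨1, one_pos, Eventually.of_forall fun m => (hdv m).differentiableOn⟩
  obtain ⟨F, hFd, hFl⟩ := hM (hyperfilter ℕ) (fun m => (D m).v) univ isOpen_univ (by
    intro x _
    obtain ⟨C, hC⟩ := hV n ra Cf D hS (‖x‖ + 1) (by positivity)
    refine ⟨1, one_pos, C, ?_⟩
    refine Eventually.mono (f := ((hyperfilter ℕ : Ultrafilter ℕ) : Filter ℕ)) hC fun m hm =>
      ⟨(hdv m).differentiableOn, fun y hy => hm y ?_⟩
    rw [mem_ball, dist_zero_right]
    rw [mem_ball, dist_eq_norm] at hy
    calc ‖y‖ = ‖(y - x) + x‖ := by rw [sub_add_cancel]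
      _ ≤ ‖y - x‖ + ‖x‖ := norm_add_le _ _
      _ < ‖x‖ + 1 := by linarith)
  have hFl' : TendstoLocallyUniformlyOn (fun m => (D m).v) F UF univ := hFl
  have hpt : ∀ x, Tendsto (fun m => (D m).v x) UF (𝓝 (F x)) := fun x =>
    hFl'.tendsto_at (mem_univ x)
  have hvin : vin D = F := by
    funext x
    exact (hpt x).limUnder_eq
  obtain ⟨-, hdl, -⟩ := hD' (hyperfilter ℕ) (fun m => (D m).v) F univ isOpen_univ hev hFl
  have hdl' : TendstoLocallyUniformlyOn (fun m => deriv (D m).v) (deriv F) UF univ := hdl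
  have hFdiff : Differentiable ℂ F := differentiableOn_univ.mp hFd
  have hF'diff : Differentiable ℂ (deriv F) :=
    differentiableOn_univ.mp (hFd.deriv isOpen_univ)
  rw [hvin]
  refine ⟨hFdiff, fun K hK => ⟨?_, ?_⟩, fun p hp => ?_⟩
  · exact (tendstoLocallyUniformlyOn_iff_forall_isCompact isOpen_univ).mp hFl' K (subset_univ K) hK
  · exact (tendstoLocallyUniformlyOn_iff_forall_isCompact isOpen_univ).mp hdl' K (subset_univ K) hK
  · -- nearest labels
    have hmin : ∀ m, ∃ l : ZMod (D m).k, ∀ l' : ZMod (D m).k,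
        ‖(D m).p l - p‖ ≤ ‖(D m).p l' - p‖ := fun m =>
      Finite.exists_min fun l : ZMod (D m).k => ‖(D m).p l - p‖
    choose l hl using hmin
    have hq : Tendsto (fun m => (D m).p (l m)) UF (𝓝 p) := by
      rw [Metric.tendsto_nhds]
      intro ε hε
      refine (hp ε hε).mono fun m hm => ?_
      obtain ⟨l', hl'⟩ := hm
      rw [dist_eq_norm]
      exact (hl m l').trans_lt hl'
    have hq' : Tendsto (fun m => (D m).p (l m)) UF (𝓝[univ] p) := by rwa [nhdsWithin_univ]
    have c1 := hFl'.tendsto_comp (hFdiff.continuous.continuousWithinAt) (mem_univ p) hq'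
    have c2 := hdl'.tendsto_comp (hF'diff.continuous.continuousWithinAt) (mem_univ p) hq'
    constructor
    · have e : (fun m => (D m).v ((D m).p (l m))) = fun _ => 0 := by
        funext m
        exact ((hB n ra Cf (D m) (hS.good m)).2 (l m)).1
      rw [e] at c1
      exact tendsto_nhds_unique c1 tendsto_const_nhds
    · have e : (fun m => deriv (D m).v ((D m).p (l m))) =
          fun m => (Complex.exp (D m).lam - 1) / (D m).lam := by
        funext m
        exact ((hB n ra Cf (D m) (hS.good m)).2 (l m)).2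
      rw [e] at c2
      refine tendsto_nhds_unique c2 (VLM_exp (fun m => (D m).lam) (fun m h => ?_)
        (hS.lim.mono_left UF_le))
      have h1 := (hS.good m).lam0
      rw [h] at h1
      exact lt_irrefl 0 h1

end V3S
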